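import Pool.Agent.T9h42.QD.SieveA

/-!
# `SieveBdOf`, second part: expectations
-/

set_option autoImplicit false

namespace Pool.Agent.T9h42.QD

open Finset Pool.Agent.T9h57.QD

theorem ind_nonneg (p : Prop) : 0 ≤ ind p := by
  unfold ind
  split_ifs <;> norm_num

theorem ind_le_one (p : Prop) : ind p ≤ 1 := by
  unfold ind
  split_ifs <;> norm_num

theorem ind_true {p : Prop} (h : p) : ind p = 1 := by
  unfold ind
  rw [if_pos h]

theorem ind_false {p : Prop} (h : ¬ p) : ind p = 0 := by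
  unfold ind
  rw [if_neg h]

theorem Zs_nonneg (S : Finset ℕ) : 0 ≤ Zs S := Finset.sum_nonneg fun _ _ => by positivity

theorem lw_nonneg (S : Finset ℕ) (x : ℕ) : 0 ≤ lw S x := by
  unfold lw
  have := Zs_nonneg S
  positivity

theorem sum_lw_le (S : Finset ℕ) : ∑ x ∈ S, lw S x ≤ 1 := by
  unfold lw
  rw [← Finset.sum_div]
  exact div_self_le_one _

/-- product weight. -/
noncomputable def Wt (n : ℕ) (S : Finset ℕ) (x : Fin n → ℕ) : ℝ := ∏ i, lw S (x i)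

theorem Wt_nonneg (n : ℕ) (S : Finset ℕ) (x : Fin n → ℕ) : 0 ≤ Wt n S x :=
  Finset.prod_nonneg fun _ _ => lw_nonneg _ _

theorem sum_Wt_le (n : ℕ) (S : Finset ℕ) :
    ∑ x ∈ Fintype.piFinset (fun _ : Fin n => S), Wt n S x ≤ 1 := by
  have h : ∑ x ∈ Fintype.piFinset (fun _ : Fin n => S), Wt n S x = ∏ _i : Fin n, ∑ x ∈ S, lw S x := by
    rw [Finset.prod_univ_sum]
    rfl
  rw [h]
  exact Finset.prod_le_one (fun _ _ => Finset.sum_nonneg fun _ _ => lw_nonneg _ _)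
    fun _ _ => sum_lw_le S

theorem ex_eq (n : ℕ) (S : Finset ℕ) (f : (Fin n → ℕ) → ℝ) :
    ex n S f = ∑ x ∈ Fintype.piFinset (fun _ : Fin n => S), Wt n S x * f x := rfl

theorem ex_mono {n : ℕ} {S : Finset ℕ} {f g : (Fin n → ℕ) → ℝ}
    (h : ∀ x ∈ Fintype.piFinset (fun _ : Fin n => S), f x ≤ g x) : ex n S f ≤ ex n S g := by
  rw [ex_eq, ex_eq]
  exact Finset.sum_le_sum fun x hx => mul_le_mul_of_nonneg_left (h x hx) (Wt_nonneg _ _ _)

theorem ex_nonneg {n : ℕ} {S : Finset ℕ} {f : (Fin n → ℕ) → ℝ}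
    (h : ∀ x ∈ Fintype.piFinset (fun _ : Fin n => S), 0 ≤ f x) : 0 ≤ ex n S f := by
  rw [ex_eq]
  exact Finset.sum_nonneg fun x hx => mul_nonneg (Wt_nonneg _ _ _) (h x hx)

theorem ex_le {n : ℕ} {S : Finset ℕ} {f : (Fin n → ℕ) → ℝ} {c : ℝ} (hc : 0 ≤ c)
    (h : ∀ x ∈ Fintype.piFinset (fun _ : Fin n => S), f x ≤ c) : ex n S f ≤ c := by
  rw [ex_eq]
  calc ∑ x ∈ Fintype.piFinset (fun _ : Fin n => S), Wt n S x * f x
      ≤ ∑ x ∈ Fintype.piFinset (fun _ : Fin n => S), Wt n S x * c :=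
        Finset.sum_le_sum fun x hx => mul_le_mul_of_nonneg_left (h x hx) (Wt_nonneg _ _ _)
    _ = (∑ x ∈ Fintype.piFinset (fun _ : Fin n => S), Wt n S x) * c := by rw [Finset.sum_mul]
    _ ≤ 1 * c := mul_le_mul_of_nonneg_right (sum_Wt_le n S) hc
    _ = c := one_mul c

theorem ex_congr {n : ℕ} {S : Finset ℕ} {f g : (Fin n → ℕ) → ℝ}
    (h : ∀ x ∈ Fintype.piFinset (fun _ : Fin n => S), f x = g x) : ex n S f = ex n S g := by
  rw [ex_eq, ex_eq]
  exact Finset.sum_congr rfl fun x hx => by rw [h x hx]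

theorem ex_sum {n : ℕ} {S : Finset ℕ} {ι : Type} (s : Finset ι) (f : ι → (Fin n → ℕ) → ℝ) :
    ex n S (fun x => ∑ i ∈ s, f i x) = ∑ i ∈ s, ex n S (f i) := by
  simp only [ex_eq]
  rw [Finset.sum_comm]
  exact Finset.sum_congr rfl fun x _ => by rw [Finset.mul_sum]

theorem ex_mul_const {n : ℕ} {S : Finset ℕ} (f : (Fin n → ℕ) → ℝ) (c : ℝ) :
    ex n S (fun x => f x * c) = ex n S f * c := by
  simp only [ex_eq]
  rw [Finset.sum_mul]
  exact Finset.sum_congr rfl fun x _ => by ring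

theorem sum_piFinset_succ {E : Type} [AddCommMonoid E] (n : ℕ) (S : Finset ℕ)
    (f : (Fin (n + 1) → ℕ) → E) :
    ∑ x ∈ Fintype.piFinset (fun _ : Fin (n + 1) => S), f x =
      ∑ v ∈ Fintype.piFinset (fun _ : Fin n => S), ∑ x ∈ S, f (Fin.cons x v) := by
  rw [← Finset.sum_product']
  refine Finset.sum_bij' (fun x _ => ((fun i => x i.succ, x 0) : (Fin n → ℕ) × ℕ))
    (fun p _ => Fin.cons p.2 p.1) ?_ ?_ ?_ ?_ ?_
  · intro x hx
    rw [Fintype.mem_piFinset] at hx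
    rw [Finset.mem_product, Fintype.mem_piFinset]
    exact ⟨fun i => hx _, hx _⟩
  · rintro ⟨v, x⟩ hp
    rw [Finset.mem_product, Fintype.mem_piFinset] at hp
    rw [Fintype.mem_piFinset]
    intro i
    refine Fin.cases ?_ (fun i => ?_) i
    · simpa using hp.2
    · simpa using hp.1 i
  · intro x _
    exact Fin.cons_self_tail x
  · rintro ⟨v, x⟩ _
    simp
  · intro x _
    show f x = f (Fin.cons (x 0) (fun i => x i.succ))
    congr 1
    exact (Fin.cons_self_tail x).symm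

/-- the condition on the product. -/
noncomputable def gg (q₀ ρ : ℕ) (a b : ℝ) (f : ℕ) : ℝ :=
  ind (a < (f : ℝ) ∧ (f : ℝ) ≤ b ∧ f ≡ ρ [MOD q₀])

/-- the exponential sum. -/
noncomputable def Ef (n : ℕ) (X : Finset ℕ) (q₀ ρ : ℕ) (a b : ℝ) (j h : ℕ) : ℂ :=
  ∑ x ∈ Fintype.piFinset (fun _ : Fin n => X),
    ((Wt n X x * gg q₀ ρ a b (∏ i, x i) : ℝ) : ℂ) * ee j (∏ i, x i) h

/-- the mass of the primitive fractions with denominator `h`. -/
noncomputable def Ph (n : ℕ) (X : Finset ℕ) (q₀ ρ : ℕ) (a b : ℝ) (h : ℕ) : ℝ :=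
  ∑ j ∈ (range h).filter (fun j => Nat.Coprime j h), ‖Ef n X q₀ ρ a b j h‖ ^ 2

theorem Ph_nonneg (n : ℕ) (X : Finset ℕ) (q₀ ρ : ℕ) (a b : ℝ) (h : ℕ) :
    0 ≤ Ph n X q₀ ρ a b h := Finset.sum_nonneg fun _ _ => by positivity

theorem Ph_one (n : ℕ) (X : Finset ℕ) (q₀ ρ : ℕ) (a b : ℝ) :
    Ph n X q₀ ρ a b 1 = (ex n X (fun x => gg q₀ ρ a b (∏ i, x i))) ^ 2 := by
  have h1 : (range 1).filter (fun j => Nat.Coprime j 1) = {0} := by decide
  have h2 : Ef n X q₀ ρ a b 0 1 = ((ex n X (fun x => gg q₀ ρ a b (∏ i, x i)) : ℝ) : ℂ) := by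
    unfold Ef
    rw [ex_eq]
    push_cast
    refine Finset.sum_congr rfl fun x _ => ?_
    simp [ee]
  unfold Ph
  rw [h1, Finset.sum_singleton, h2, Complex.norm_real, Real.norm_eq_abs, sq_abs]

theorem ex_pair (n : ℕ) (X : Finset ℕ) (q₀ ρ : ℕ) (a b : ℝ) (τ : ℕ) (hτ : 0 < τ) :
    (τ : ℝ) * ex n X (fun x => ex n X (fun x' =>
        gg q₀ ρ a b (∏ i, x i) * gg q₀ ρ a b (∏ i, x' i) * ind (∏ i, x i ≡ ∏ i, x' i [MOD τ]))) =
      ∑ h ∈ τ.divisors, Ph n X q₀ ρ a b h := by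
  have h1 := parseval (Fintype.piFinset (fun _ : Fin n => X))
    (fun x => Wt n X x * gg q₀ ρ a b (∏ i, x i)) (fun x => ∏ i, x i) τ hτ
  have h2 := sum_range_div (fun j h => ‖Ef n X q₀ ρ a b j h‖ ^ 2) (fun g j h hg => by
    have : Ef n X q₀ ρ a b (g * j) (g * h) = Ef n X q₀ ρ a b j h := by
      unfold Ef
      exact Finset.sum_congr rfl fun x _ => by rw [ee_scale _ _ _ _ hg]
    simp only [this]) τ hτ
  unfold Ph
  rw [← h2]
  unfold Ef
  rw [h1]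
  congr 1
  rw [ex_eq]
  refine Finset.sum_congr rfl fun x _ => ?_
  rw [ex_eq, Finset.mul_sum]
  exact Finset.sum_congr rfl fun x' _ => by ring

/-- the swap. -/
theorem ex_swap (n k : ℕ) (X Y : Finset ℕ) (q₀ ρ : ℕ) (a b : ℝ) (Q : ℕ)
    (hY : ∀ y ∈ Fintype.piFinset (fun _ : Fin k => Y), 0 < ∏ i, y i ∧ ∏ i, y i ≤ Q) :
    ex k Y (fun y => ((∏ i, y i : ℕ) : ℝ) * ex n X (fun x => ex n X (fun x' =>
        gg q₀ ρ a b (∏ i, x i) * gg q₀ ρ a b (∏ i, x' i) *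
          ind (∏ i, x i ≡ ∏ i, x' i [MOD ∏ i, y i])))) =
      ∑ h ∈ Icc 1 Q, ex k Y (fun y => ind (h ∣ ∏ i, y i)) * Ph n X q₀ ρ a b h := by
  have h1 : ex k Y (fun y => ((∏ i, y i : ℕ) : ℝ) * ex n X (fun x => ex n X (fun x' =>
        gg q₀ ρ a b (∏ i, x i) * gg q₀ ρ a b (∏ i, x' i) *
          ind (∏ i, x i ≡ ∏ i, x' i [MOD ∏ i, y i])))) =
      ex k Y (fun y => ∑ h ∈ Icc 1 Q, ind (h ∣ ∏ i, y i) * Ph n X q₀ ρ a b h) := by
    refine ex_congr fun y hy => ?_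
    obtain ⟨hy1, hy2⟩ := hY y hy
    rw [ex_pair n X q₀ ρ a b _ hy1]
    have h3 : (∏ i, y i).divisors = (Icc 1 Q).filter (fun h => h ∣ ∏ i, y i) := by
      ext h
      simp only [Nat.mem_divisors, Finset.mem_filter, Finset.mem_Icc]
      constructor
      · rintro ⟨h4, -⟩
        exact ⟨⟨Nat.pos_of_dvd_of_pos h4 hy1, (Nat.le_of_dvd hy1 h4).trans hy2⟩, h4⟩
      · rintro ⟨-, h4⟩
        exact ⟨h4, hy1.ne'⟩
    rw [h3, Finset.sum_filter]
    refine Finset.sum_congr rfl fun h _ => ?_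
    by_cases h5 : h ∣ ∏ i, y i
    · rw [if_pos h5, ind_true h5, one_mul]
    · rw [if_neg h5, ind_false h5, zero_mul]
  rw [h1, ex_sum]
  exact Finset.sum_congr rfl fun h _ => ex_mul_const _ _

/-- partial summation. -/
theorem abel_bound (Φ : ℕ → ℝ) (hΦ : ∀ h, 0 ≤ Φ h) (B N : ℝ) (hB : 0 ≤ B) (hN : 0 ≤ N)
    (h : ∀ Q : ℕ, 1 ≤ Q → ∑ h ∈ Icc 1 Q, Φ h ≤ B * (N + (Q : ℝ) ^ 2)) (D₁ : ℕ) (hD : 1 ≤ D₁) (Q : ℕ) :
    ∑ h ∈ Ioc D₁ Q, Φ h / h ≤ B * (N / D₁ + 2 * Q) := by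
  rcases lt_or_ge Q D₁ with hQ | hQ
  · rw [Finset.Ioc_eq_empty (by omega)]
    simp only [Finset.sum_empty]
    positivity
  have hG : ∀ Q : ℕ, 1 ≤ Q → ∑ h ∈ Ioc D₁ Q, Φ h ≤ B * (N + (Q : ℝ) ^ 2) := by
    intro Q hQ
    refine le_trans (Finset.sum_le_sum_of_subset_of_nonneg ?_ fun i _ _ => hΦ i) (h Q hQ)
    intro x hx
    rw [Finset.mem_Ioc] at hx
    rw [Finset.mem_Icc]
    omega
  have hDp : (0 : ℝ) < D₁ := by exact_mod_cast hD
  have key : ∀ Q : ℕ, D₁ ≤ Q → ∑ h ∈ Ioc D₁ Q, Φ h / h - (∑ h ∈ Ioc D₁ Q, Φ h) / Q ≤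
      B * (N / D₁ - N / Q + Q) := by
    intro Q hQ
    induction Q, hQ using Nat.le_induction with
    | base =>
      simp only [Finset.Ioc_self, Finset.sum_empty, zero_div, sub_self]
      positivity
    | succ Q hQ ih =>
      have hQp : (0 : ℝ) < Q := by
        have : 1 ≤ Q := hD.trans hQ
        exact_mod_cast this
      have e1 : ∑ h ∈ Ioc D₁ (Q + 1), Φ h / (h : ℝ) =
          ∑ h ∈ Ioc D₁ Q, Φ h / (h : ℝ) + Φ (Q + 1) / ((Q + 1 : ℕ) : ℝ) := by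
        rw [Finset.sum_Ioc_succ_top (by omega)]
      have e2 : ∑ h ∈ Ioc D₁ (Q + 1), Φ h = ∑ h ∈ Ioc D₁ Q, Φ h + Φ (Q + 1) := by
        rw [Finset.sum_Ioc_succ_top (by omega)]
      rw [e1, e2]
      have hg := hG Q (hD.trans hQ)
      set G := ∑ h ∈ Ioc D₁ Q, Φ h
      set F := ∑ h ∈ Ioc D₁ Q, Φ h / (h : ℝ)
      have e3 : F + Φ (Q + 1) / ((Q + 1 : ℕ) : ℝ) - (G + Φ (Q + 1)) / ((Q + 1 : ℕ) : ℝ) =
          (F - G / Q) + G / (Q * (Q + 1)) := by
        push_cast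
        field_simp
        ring
      rw [e3]
      have e4 : G / (Q * (Q + 1)) ≤ B * (N + (Q : ℝ) ^ 2) / (Q * (Q + 1)) := by gcongr
      have e5 : B * (N + (Q : ℝ) ^ 2) / (Q * (Q + 1)) ≤ B * (N / Q - N / (Q + 1) + 1) := by
        rw [mul_div_assoc]
        refine mul_le_mul_of_nonneg_left ?_ hB
        have e6 : (N + (Q : ℝ) ^ 2) / (Q * (Q + 1)) = N / Q - N / (Q + 1) + Q / (Q + 1) := by
          field_simp
          ring
        rw [e6]
        have e7 : (Q : ℝ) / (Q + 1) ≤ 1 := by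
          rw [div_le_one (by positivity)]
          linarith
        linarith
      push_cast
      have : B * (N / D₁ - N / (Q + 1) + (Q + 1)) =
          B * (N / D₁ - N / Q + Q) + B * (N / Q - N / (Q + 1) + 1) := by ring
      rw [this]
      linarith
  have hQp : (0 : ℝ) < Q := by
    have : 1 ≤ Q := hD.trans hQ
    exact_mod_cast this
  have h1 := key Q hQ
  have h2 : (∑ h ∈ Ioc D₁ Q, Φ h) / Q ≤ B * (N / Q + Q) := by
    rw [div_le_iff₀ hQp]
    refine (hG Q (hD.trans hQ)).trans (le_of_eq ?_)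
    field_simp
  have h3 : B * (N / D₁ + 2 * Q) = B * (N / D₁ - N / Q + Q) + B * (N / Q + Q) := by ring
  rw [h3]
  linarith

theorem sum_three_half (w : ℕ) (hw : 1 ≤ w) (m : ℕ) :
    ∑ h ∈ Ioc w m, Real.sqrt h / (h : ℝ) ^ 2 ≤ 2 / Real.sqrt w := by
  rcases lt_or_ge m w with hm | hm
  · rw [Finset.Ioc_eq_empty (by omega)]
    simp only [Finset.sum_empty]
    positivity
  have key : ∀ m : ℕ, w ≤ m → ∑ h ∈ Ioc w m, Real.sqrt h / (h : ℝ) ^ 2 ≤
      2 / Real.sqrt w - 2 / Real.sqrt m := by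
    intro m hm
    induction m, hm using Nat.le_induction with
    | base => simp
    | succ m hm ih =>
      rw [Finset.sum_Ioc_succ_top (by omega)]
      have hmp : (0 : ℝ) < m := by
        have : 1 ≤ m := hw.trans hm
        exact_mod_cast this
      have hr : 0 < Real.sqrt m := Real.sqrt_pos.2 hmp
      have hs : 0 < Real.sqrt ((m + 1 : ℕ) : ℝ) := Real.sqrt_pos.2 (by positivity)
      have hr2 : Real.sqrt m ^ 2 = m := Real.sq_sqrt hmp.le
      have hs2 : Real.sqrt ((m + 1 : ℕ) : ℝ) ^ 2 = m + 1 := by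
        rw [Real.sq_sqrt (by positivity)]
        push_cast
        ring
      have hrs : Real.sqrt m ≤ Real.sqrt ((m + 1 : ℕ) : ℝ) := by
        apply Real.sqrt_le_sqrt
        push_cast
        linarith
      have e0 : (((m + 1 : ℕ) : ℝ)) ^ 2 = Real.sqrt ((m + 1 : ℕ) : ℝ) ^ 4 := by
        have : Real.sqrt ((m + 1 : ℕ) : ℝ) ^ 4 = (Real.sqrt ((m + 1 : ℕ) : ℝ) ^ 2) ^ 2 := by ring
        rw [this, hs2]
        push_cast
        ring
      rw [e0]
      set s := Real.sqrt ((m + 1 : ℕ) : ℝ)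
      set r := Real.sqrt (m : ℝ)
      have e1 : s / s ^ 4 ≤ 2 / r - 2 / s := by
        have e2 : 2 / r - 2 / s = 2 * (s - r) / (r * s) := by field_simp
        have e3 : s - r = 1 / (s + r) := by
          rw [eq_div_iff (by positivity)]
          nlinarith
        rw [e2, e3]
        have e4 : s / s ^ 4 = 1 / s ^ 3 := by field_simp
        have e5 : 2 * (1 / (s + r)) / (r * s) = 1 / ((s + r) * (r * s) / 2) := by field_simp
        rw [e4, e5]
        apply one_div_le_one_div_of_le (by positivity)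
        nlinarith [mul_pos hr hs, mul_le_mul_of_nonneg_left hrs hs.le,
          mul_le_mul_of_nonneg_left hrs (mul_pos hs hs).le,
          mul_le_mul_of_nonneg_left hrs (mul_pos hr hs).le]
      linarith
  refine (key m hm).trans ?_
  have : 0 ≤ 2 / Real.sqrt m := by positivity
  linarith

end Pool.Agent.T9h42.QD
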