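import Pool.Agent.T9h42.QD.SieveC

/-!
# PIECE `SieveBdOf`
-/

set_option autoImplicit false

namespace Pool.Agent.T9h42.QD

open Finset Pool.Agent.T9h57.QD

theorem prob_nonneg (k : ℕ) (Y : Finset ℕ) (h : ℕ) :
    0 ≤ ex k Y (fun y => ind (h ∣ ∏ i, y i)) := ex_nonneg fun _ _ => ind_nonneg _

theorem prob_le_one (k : ℕ) (Y : Finset ℕ) (h : ℕ) :
    ex k Y (fun y => ind (h ∣ ∏ i, y i)) ≤ 1 := ex_le zero_le_one fun _ _ => ind_le_one _

theorem prob_zero {M : ℕ} (k : ℕ) (Y : Finset ℕ) (hY : ∀ x ∈ Y, 0 < x ∧ Nat.Coprime x M) (h : ℕ)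
    (hh : ¬ Nat.Coprime h M) : ex k Y (fun y => ind (h ∣ ∏ i, y i)) = 0 := by
  rw [ex_eq]
  refine Finset.sum_eq_zero fun y hy => ?_
  rw [ind_false, mul_zero]
  intro hd
  exact hh (Nat.Coprime.coprime_dvd_left hd (prod_cop hY y hy).2)

/-- the divisor function of rough numbers. -/
theorem tau_rough (hRT : RoughTau) (w M K : ℕ) (hw : 2 ≤ w) (hwM : ∀ p, p.Prime → p ≤ w → p ∣ M)
    (hK : 2 ^ K ≤ w) (h : ℕ) (h0 : 0 < h) (hc : Nat.Coprime h M) (N : ℕ) (hN : h ≤ N) :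
    h.divisors.card ≤ 2 ^ Nat.log w N ∧ (2 ^ Nat.log w N) ^ K ≤ N := by
  constructor
  · refine (hRT w h hw h0.ne' fun p hp hd => ?_).trans
      (Nat.pow_le_pow_right (by norm_num) (Nat.log_mono_right hN))
    by_contra hlt
    have h1 := hwM p hp (by omega)
    have h2 : p ∣ 1 := by
      rw [← Nat.coprime_iff_gcd_eq_one.1 hc]
      exact Nat.dvd_gcd hd h1
    exact hp.one_lt.ne' (Nat.dvd_one.1 h2)
  · rw [← pow_mul, mul_comm, pow_mul]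
    exact (Nat.pow_le_pow_left hK _).trans (Nat.pow_log_le_self w (by omega))

theorem rough_gt (w M : ℕ) (hwM : ∀ p, p.Prime → p ≤ w → p ∣ M) (h : ℕ) (h1 : 1 < h)
    (hc : Nat.Coprime h M) : w < h := by
  by_contra hlt
  obtain ⟨p, hp, hd⟩ := Nat.exists_prime_and_dvd (show h ≠ 1 by omega)
  have h2 := hwM p hp ((Nat.le_of_dvd (by omega) hd).trans (by omega))
  have h3 : p ∣ 1 := by
    rw [← Nat.coprime_iff_gcd_eq_one.1 hc]
    exact Nat.dvd_gcd hd h2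
  exact hp.one_lt.ne' (Nat.dvd_one.1 h3)

/-- small denominators: numbers. -/
theorem small_num (K : ℕ) (t h D C P E : ℝ) (ht : 1 ≤ t) (hh : 1 ≤ h) (hD : 0 < D) (hC : 0 ≤ C)
    (htK : t ^ (6 * K) ≤ h) (hP : 0 ≤ P) (hP1 : P ≤ (2 * t) ^ K / h) (hE : 0 ≤ E)
    (hE1 : E ≤ (2 * t) ^ K / h + C * h / D) :
    P * (h * E ^ 2) ≤ 2 * 8 ^ K * (Real.sqrt h / h ^ 2) + 2 * 8 ^ K * C ^ 2 * h ^ 3 / D ^ 2 := by
  have hh0 : 0 < h := by linarith
  set T := (2 * t) ^ K with hT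
  have hT1 : 1 ≤ T := one_le_pow₀ (by linarith)
  have hs0 : 0 < Real.sqrt h := Real.sqrt_pos.2 hh0
  have hs1 : 1 ≤ Real.sqrt h := Real.one_le_sqrt.2 hh
  have hs2 : Real.sqrt h ^ 2 = h := Real.sq_sqrt hh0.le
  have ht3 : t ^ (3 * K) ≤ Real.sqrt h := by
    apply Real.le_sqrt_of_sq_le
    rw [← pow_mul]
    refine le_trans (le_of_eq ?_) htK
    congr 1
    ring
  have hT3 : T ^ 3 ≤ 8 ^ K * Real.sqrt h := by
    have : T ^ 3 = 8 ^ K * t ^ (3 * K) := by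
      rw [hT, mul_pow, mul_pow, ← pow_mul, ← pow_mul, mul_comm K 3, pow_mul 2 3 K]
      norm_num
    rw [this]
    exact mul_le_mul_of_nonneg_left ht3 (by positivity)
  have hT13 : T ≤ T ^ 3 := by
    calc T = T ^ 1 := (pow_one T).symm
      _ ≤ T ^ 3 := pow_le_pow_right₀ hT1 (by norm_num)
  have hsh : Real.sqrt h ≤ h := by nlinarith
  have e1 : E ^ 2 ≤ 2 * (T / h) ^ 2 + 2 * (C * h / D) ^ 2 := by
    have h1 : E ^ 2 ≤ (T / h + C * h / D) ^ 2 := pow_le_pow_left₀ hE hE1 2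
    nlinarith [sq_nonneg (T / h - C * h / D)]
  calc P * (h * E ^ 2) ≤ T / h * (h * (2 * (T / h) ^ 2 + 2 * (C * h / D) ^ 2)) := by
        gcongr
    _ = 2 * T ^ 3 / h ^ 2 + 2 * T * C ^ 2 * h ^ 2 / D ^ 2 := by
        field_simp
    _ ≤ 2 * (8 ^ K * Real.sqrt h) / h ^ 2 + 2 * (8 ^ K * h) * C ^ 2 * h ^ 2 / D ^ 2 := by
        have h2 : T ≤ 8 ^ K * h :=
          hT13.trans (hT3.trans (mul_le_mul_of_nonneg_left hsh (by positivity)))
        gcongr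
    _ = _ := by ring

/-- large denominators: numbers. -/
theorem large_num (C₃ U C₄ D₁ ε : ℝ) (hC₃ : 0 ≤ C₃) (hU : 0 ≤ U) (hC₄ : 0 ≤ C₄) (hD : 1 ≤ D₁)
    (hε : 0 < ε) (h1 : U ^ 8 ≤ C₃ * (16 * D₁ ^ 4)) (h2 : 16 * C₃ * C₄ ^ 8 / ε ^ 8 ≤ D₁) :
    C₄ * U / D₁ ≤ ε := by
  have hD0 : 0 < D₁ := by linarith
  apply le_of_pow_le_pow_left₀ (n := 8) (by norm_num) hε.le
  rw [div_pow, mul_pow, div_le_iff₀ (by positivity)]
  rw [div_le_iff₀ (by positivity)] at h2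
  calc C₄ ^ 8 * U ^ 8 ≤ C₄ ^ 8 * (C₃ * (16 * D₁ ^ 4)) := by gcongr
    _ = (16 * C₃ * C₄ ^ 8) * D₁ ^ 4 := by ring
    _ ≤ (D₁ * ε ^ 8) * D₁ ^ 4 := by gcongr
    _ = ε ^ 8 * D₁ ^ 5 := by ring
    _ ≤ ε ^ 8 * D₁ ^ 8 := by
        have : D₁ ^ 5 ≤ D₁ ^ 8 := pow_le_pow_right₀ hD (by norm_num)
        gcongr

theorem sum_split (f : ℕ → ℝ) (hf : ∀ h, 0 ≤ f h) (w D₁ Q : ℕ)
    (h0 : ∀ h, 1 < h → h ≤ w → f h = 0) :
    ∑ h ∈ Icc 1 Q, f h ≤ f 1 + ∑ h ∈ Ioc w D₁, f h + ∑ h ∈ Ioc D₁ Q, f h := by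
  have h1 : ∑ h ∈ Icc 1 Q, f h ≤ ∑ h ∈ ({1} ∪ Ioc w D₁) ∪ Ioc D₁ Q, f h := by
    rw [← Finset.sum_filter_ne_zero]
    refine Finset.sum_le_sum_of_subset_of_nonneg ?_ fun i _ _ => hf i
    intro h hh
    rw [Finset.mem_filter, Finset.mem_Icc] at hh
    simp only [Finset.mem_union, Finset.mem_singleton, Finset.mem_Ioc]
    by_cases h2 : h = 1
    · exact Or.inl (Or.inl h2)
    · have h3 : w < h := by
        by_contra h4
        exact hh.2 (h0 h (by omega) (by omega))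
      rcases Nat.lt_or_ge D₁ h with h5 | h5
      · exact Or.inr ⟨h5, hh.1.2⟩
      · exact Or.inl (Or.inr ⟨h3, h5⟩)
  have hu : ∀ s t : Finset ℕ, ∑ h ∈ s ∪ t, f h ≤ ∑ h ∈ s, f h + ∑ h ∈ t, f h := by
    intro s t
    rw [← Finset.sum_union_inter]
    have : 0 ≤ ∑ h ∈ s ∩ t, f h := Finset.sum_nonneg fun i _ => hf i
    linarith
  have h2 := hu ({1} ∪ Ioc w D₁) (Ioc D₁ Q)
  have h3 := hu {1} (Ioc w D₁)
  rw [Finset.sum_singleton] at h3
  linarith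

theorem sieveBdOf : SieveBdOf := by
  intro hLS hRT hDP hDX hTX n k e₀ ε hn he hε
  obtain ⟨CL, hCL, hL⟩ := hLS
  obtain ⟨n', rfl⟩ : ∃ n', n = n' + 1 := ⟨n - 1, by omega⟩
  set K := n' + k with hK
  set m := e₀ * k * k + (n' + 1) * (n' + 1) with hm
  have hm1 : 1 ≤ m := by
    rw [hm]
    exact le_trans (Nat.mul_pos (Nat.succ_pos n') (Nat.succ_pos n')) (Nat.le_add_left _ _)
  set w := 2 ^ (6 * K) + 2 ^ (8 * m) + (⌈(12 * 8 ^ K / ε) ^ 2⌉₊ + 2) with hw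
  have hA : ∀ a b c : ℕ, a ≤ a + b + (c + 2) ∧ b ≤ a + b + (c + 2) ∧ 2 ≤ a + b + (c + 2) ∧
      c ≤ a + b + (c + 2) := by
    intro a b c
    omega
  obtain ⟨hw1, hw2, hw3, hw5⟩ :=
    hA (2 ^ (6 * K)) (2 ^ (8 * m)) ⌈(12 * 8 ^ K / ε) ^ 2⌉₊
  rw [← hw] at hw1 hw2 hw3 hw5
  have hw4 : 2 * 8 ^ K * (2 / Real.sqrt w) ≤ ε / 3 := by
    have hs : 12 * 8 ^ K / ε ≤ Real.sqrt w := by
      apply Real.le_sqrt_of_sq_le
      refine (Nat.le_ceil _).trans ?_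
      exact_mod_cast hw5
    have hs0 : 0 < Real.sqrt w := by
      apply Real.sqrt_pos.2
      exact_mod_cast (by omega : 0 < w)
    rw [div_le_iff₀ hε] at hs
    rw [← mul_div_assoc, div_le_iff₀ hs0]
    linarith
  refine ⟨w, fun M q₀ R₁ R₂ H hM hwM hq₀ hqM hR₁ hR₂ hH => ?_⟩
  obtain ⟨CX, DX, hDX1⟩ := hDX M R₁ hM hR₁
  obtain ⟨CY, DY, hDY1⟩ := hDX M R₂ hM hR₂
  obtain ⟨CT, DT, hCT, hDT1⟩ := hTX M q₀ R₁ hM hq₀ hqM hR₁
  -- constants
  set C₃ : ℝ := ((R₂ * H : ℕ) : ℝ) ^ (k * k) * (R₁ : ℝ) ^ ((n' + 1) * (n' + 1)) with hC₃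
  set C₄ : ℝ := (CY : ℝ) ^ k * CL * (((CX : ℝ) * R₁) ^ (n' + 1) +
    2 * (CX : ℝ) ^ (n' + 1) * ((R₂ * H : ℕ) : ℝ) ^ k) with hC₄
  have hC₃0 : 0 ≤ C₃ := by rw [hC₃]; positivity
  have hC₃1 : 1 ≤ C₃ := by
    rw [hC₃]
    have h1 : (1 : ℝ) ≤ ((R₂ * H : ℕ) : ℝ) := by
      have : 1 ≤ R₂ * H := Nat.mul_pos (by omega) (by omega)
      exact_mod_cast this
    have h2 : (1 : ℝ) ≤ R₁ := by exact_mod_cast (by omega : 1 ≤ R₁)
    exact one_le_mul_of_one_le_of_one_le (one_le_pow₀ h1) (one_le_pow₀ h2)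
  have hC₄0 : 0 ≤ C₄ := by rw [hC₄]; positivity
  set L := 1 + CX + CY + ⌈16 * C₃ * C₄ ^ 8 / (ε / 3) ^ 8⌉₊ + ⌈2 * 8 ^ K * CT ^ 2 / (ε / 3)⌉₊ with hLdef
  refine ⟨(L ^ 2) ^ 2 + DX + DY + DT + 1, fun D hD X Y hX hY ρ a b => ?_⟩
  set D₁ := Nat.sqrt (Nat.sqrt D) with hD₁
  have hD0 : 0 < D := by omega
  have hLD : L ≤ D₁ := by
    rw [hD₁, Nat.le_sqrt', Nat.le_sqrt']
    omega
  have hD₁4 : D₁ ^ 4 ≤ D := by
    have h1 : D₁ ^ 2 ≤ Nat.sqrt D := Nat.sqrt_le' _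
    calc D₁ ^ 4 = (D₁ ^ 2) ^ 2 := by ring
      _ ≤ (Nat.sqrt D) ^ 2 := Nat.pow_le_pow_left h1 2
      _ ≤ D := Nat.sqrt_le' _
  have hD₁1 : 1 ≤ D₁ := by
    have : 1 ≤ L := by rw [hLdef]; omega
    omega
  have hD16 : D ≤ 16 * D₁ ^ 4 := by
    have h1 : Nat.sqrt D < (D₁ + 1) ^ 2 := Nat.lt_succ_sqrt' _
    have h2 : D < (Nat.sqrt D + 1) ^ 2 := Nat.lt_succ_sqrt' _
    calc D ≤ (Nat.sqrt D + 1) ^ 2 := h2.le
      _ ≤ ((D₁ + 1) ^ 2) ^ 2 := Nat.pow_le_pow_left h1 2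
      _ ≤ ((2 * D₁) ^ 2) ^ 2 := by gcongr; omega
      _ = 16 * D₁ ^ 4 := by ring
  -- the slots
  have hXm : ∀ x ∈ X, 0 < x ∧ Nat.Coprime x M := by
    intro x hx
    rw [hX, mem_Kp] at hx
    exact ⟨by omega, hx.2⟩
  have hYm : ∀ x ∈ Y, 0 < x ∧ Nat.Coprime x M := by
    intro x hx
    rw [hY, mem_Kp] at hx
    exact ⟨by omega, hx.2⟩
  have hDD' : D ≤ H * D ^ e₀ := by
    calc D ≤ D ^ e₀ := Nat.le_self_pow (by omega) D
      _ ≤ H * D ^ e₀ := Nat.le_mul_of_pos_left _ (by omega)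
  obtain ⟨-, hXg⟩ := hDX1 D (by omega) X hX
  obtain ⟨-, hYg⟩ := hDY1 (H * D ^ e₀) (by omega) Y hY
  have hT := hDT1 D (by omega) X hX
  set N := (R₁ * D) ^ (n' + 1) with hN
  set Q := (R₂ * (H * D ^ e₀)) ^ k with hQ
  have hN1 : 1 ≤ N := Nat.one_le_pow _ _ (Nat.mul_pos (by omega) hD0)
  have hQ1 : 1 ≤ Q := Nat.one_le_pow _ _ (Nat.mul_pos (by omega) (by omega))
  have hYQ : ∀ y ∈ Fintype.piFinset (fun _ : Fin k => Y), 0 < ∏ i, y i ∧ ∏ i, y i ≤ Q := by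
    intro y hy
    refine ⟨(prod_cop hYm y hy).1, ?_⟩
    rw [Fintype.mem_piFinset] at hy
    calc ∏ i, y i ≤ ∏ _i : Fin k, (R₂ * (H * D ^ e₀)) := by
          refine Finset.prod_le_prod' fun i _ => ?_
          have := hy i
          rw [hY, mem_Kp] at this
          exact this.1.2
      _ = Q := by simp [hQ]
  have hXN : ∀ x ∈ Fintype.piFinset (fun _ : Fin (n' + 1) => X), ∏ i, x i ∈ Icc 1 N := by
    intro x hx
    rw [Finset.mem_Icc]
    refine ⟨(prod_cop hXm x hx).1, ?_⟩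
    rw [Fintype.mem_piFinset] at hx
    calc ∏ i, x i ≤ ∏ _i : Fin (n' + 1), (R₁ * D) := by
          refine Finset.prod_le_prod' fun i _ => ?_
          have := hx i
          rw [hX, mem_Kp] at this
          exact this.1.2
      _ = N := by simp [hN]
  have hmain := ex_swap (n' + 1) k X Y q₀ ρ a b Q hYQ
  unfold gg at hmain
  rw [hmain]
  clear hmain
  change ∑ h ∈ Icc 1 Q, ex k Y (fun y => ind (h ∣ ∏ i, y i)) * Ph (n' + 1) X q₀ ρ a b h ≤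
    (ex (n' + 1) X (fun x => gg q₀ ρ a b (∏ i, x i))) ^ 2 + ε
  rw [← Ph_one]
  have hDr : (0 : ℝ) < D := by exact_mod_cast hD0
  have hD₁r : (1 : ℝ) ≤ D₁ := by exact_mod_cast hD₁1
  have hD₁4r : (D₁ : ℝ) ^ 4 ≤ D := by exact_mod_cast hD₁4
  have hD₁D : (D₁ : ℝ) ≤ D := by
    calc (D₁ : ℝ) = (D₁ : ℝ) ^ 1 := (pow_one _).symm
      _ ≤ (D₁ : ℝ) ^ 4 := pow_le_pow_right₀ hD₁r (by norm_num)
      _ ≤ D := hD₁4r
  have hLr : (L : ℝ) ≤ D₁ := by exact_mod_cast hLD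
  have hsplit := sum_split (fun h => ex k Y (fun y => ind (h ∣ ∏ i, y i)) * Ph (n' + 1) X q₀ ρ a b h)
    (fun h => mul_nonneg (prob_nonneg _ _ _) (Ph_nonneg _ _ _ _ _ _ _)) w D₁ Q (fun h h1 h2 => by
      have hnc : ¬ Nat.Coprime h M := fun hc => absurd (rough_gt w M hwM h h1 hc) (by omega)
      simp only [prob_zero k Y hYm h hnc, zero_mul])
  refine hsplit.trans ?_
  have hone : ex k Y (fun y => ind (1 ∣ ∏ i, y i)) * Ph (n' + 1) X q₀ ρ a b 1 ≤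
      Ph (n' + 1) X q₀ ρ a b 1 :=
    mul_le_of_le_one_left (Ph_nonneg _ _ _ _ _ _ _) (prob_le_one _ _ _)
  -- small denominators
  have hsmall : ∑ h ∈ Ioc w D₁, ex k Y (fun y => ind (h ∣ ∏ i, y i)) * Ph (n' + 1) X q₀ ρ a b h ≤
      ε / 3 + ε / 3 := by
    have hterm : ∀ h ∈ Ioc w D₁, ex k Y (fun y => ind (h ∣ ∏ i, y i)) * Ph (n' + 1) X q₀ ρ a b h ≤
        2 * 8 ^ K * (Real.sqrt h / (h : ℝ) ^ 2) + 2 * 8 ^ K * CT ^ 2 * (D₁ : ℝ) ^ 3 / (D : ℝ) ^ 2 := by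
      intro h hh
      rw [Finset.mem_Ioc] at hh
      by_cases hc : Nat.Coprime h M
      swap
      · rw [prob_zero k Y hYm h hc, zero_mul]
        positivity
      have h0 : 0 < h := by omega
      have h1 : 1 < h := by omega
      have hhr : (1 : ℝ) ≤ h := by exact_mod_cast h0
      obtain ⟨ht1, ht2⟩ := tau_rough hRT w M (6 * K) hw3 hwM hw1 h h0 hc h le_rfl
      set t : ℕ := 2 ^ Nat.log w h with ht
      have htr : (1 : ℝ) ≤ t := by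
        have : 1 ≤ t := Nat.one_le_two_pow
        exact_mod_cast this
      have hτr : (h.divisors.card : ℝ) ≤ t := by exact_mod_cast ht1
      have hdiv : ∀ (S : Finset ℕ) (j : ℕ), j ≤ K → (∀ g, g ∣ h → ∑ x ∈ S, lw S x * ind (g ∣ x) ≤ 2 / g) →
          ex j S (fun x => ind (h ∣ ∏ i, x i)) ≤ (2 * (t : ℝ)) ^ K / h := by
        intro S j hj hS
        refine (hDP S h 2 j h0 (by norm_num) hS).trans ?_
        have h2 : (h.divisors.card : ℝ) ^ j * 2 ^ j ≤ (2 * (t : ℝ)) ^ K := by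
          rw [← mul_pow]
          calc ((h.divisors.card : ℝ) * 2) ^ j ≤ (2 * (t : ℝ)) ^ j := by
                apply pow_le_pow_left₀ (by positivity)
                linarith
            _ ≤ (2 * (t : ℝ)) ^ K := pow_le_pow_right₀ (by linarith) hj
        gcongr
      have hpY : ex k Y (fun y => ind (h ∣ ∏ i, y i)) ≤ (2 * (t : ℝ)) ^ K / h := by
        refine hdiv Y k (by omega) fun g hg => ?_
        refine (hYg g (Nat.pos_of_dvd_of_pos hg h0)).2 ?_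
        have hgh : g ≤ D₁ := (Nat.le_of_dvd h0 hg).trans hh.2
        calc CY * g ≤ D₁ * D₁ := Nat.mul_le_mul (by omega) hgh
          _ ≤ D₁ ^ 4 := by
              calc D₁ * D₁ = D₁ ^ 2 := by ring
                _ ≤ D₁ ^ 4 := Nat.pow_le_pow_right hD₁1 (by norm_num)
          _ ≤ D := hD₁4
          _ ≤ H * D ^ e₀ := hDD'
      have hpX : ex n' X (fun v => ind (h ∣ ∏ i, v i)) ≤ (2 * (t : ℝ)) ^ K / h := by
        refine hdiv X n' (by omega) fun g hg => ?_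
        refine (hXg g (Nat.pos_of_dvd_of_pos hg h0)).2 ?_
        have hgh : g ≤ D₁ := (Nat.le_of_dvd h0 hg).trans hh.2
        calc CX * g ≤ D₁ * D₁ := Nat.mul_le_mul (by omega) hgh
          _ ≤ D₁ ^ 4 := by
              calc D₁ * D₁ = D₁ ^ 2 := by ring
                _ ≤ D₁ ^ 4 := Nat.pow_le_pow_right hD₁1 (by norm_num)
          _ ≤ D := hD₁4
      have hE0 : 0 ≤ ex n' X (fun v => ind (h ∣ ∏ i, v i)) + CT * h / D := by
        have := prob_nonneg n' X h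
        positivity
      have hPh : Ph (n' + 1) X q₀ ρ a b h ≤
          (h : ℝ) * (ex n' X (fun v => ind (h ∣ ∏ i, v i)) + CT * h / D) ^ 2 := by
        unfold Ph
        calc ∑ j ∈ (range h).filter (fun j => Nat.Coprime j h), ‖Ef (n' + 1) X q₀ ρ a b j h‖ ^ 2
            ≤ ∑ _j ∈ (range h).filter (fun j => Nat.Coprime j h),
                (ex n' X (fun v => ind (h ∣ ∏ i, v i)) + CT * h / D) ^ 2 := by
              refine Finset.sum_le_sum fun j hj => ?_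
              exact pow_le_pow_left₀ (norm_nonneg _) (Ef_bound X hXm CT hCT hM hqM hT n' ρ a b j h h1
                hc (Finset.mem_filter.1 hj).2) 2
          _ = (((range h).filter (fun j => Nat.Coprime j h)).card : ℝ) *
                (ex n' X (fun v => ind (h ∣ ∏ i, v i)) + CT * h / D) ^ 2 := by
              rw [Finset.sum_const, nsmul_eq_mul]
          _ ≤ _ := by
              refine mul_le_mul_of_nonneg_right ?_ (by positivity)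
              have : ((range h).filter (fun j => Nat.Coprime j h)).card ≤ h :=
                (Finset.card_filter_le _ _).trans (by simp)
              exact_mod_cast this
      have hnum := small_num K t h D CT (ex k Y (fun y => ind (h ∣ ∏ i, y i)))
        (ex n' X (fun v => ind (h ∣ ∏ i, v i)) + CT * h / D) htr hhr hDr hCT
        (by exact_mod_cast ht2) (prob_nonneg _ _ _) hpY hE0 (by linarith)
      calc ex k Y (fun y => ind (h ∣ ∏ i, y i)) * Ph (n' + 1) X q₀ ρ a b h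
          ≤ ex k Y (fun y => ind (h ∣ ∏ i, y i)) *
            ((h : ℝ) * (ex n' X (fun v => ind (h ∣ ∏ i, v i)) + CT * h / D) ^ 2) :=
            mul_le_mul_of_nonneg_left hPh (prob_nonneg _ _ _)
        _ ≤ 2 * 8 ^ K * (Real.sqrt h / (h : ℝ) ^ 2) + 2 * 8 ^ K * CT ^ 2 * (h : ℝ) ^ 3 / (D : ℝ) ^ 2 :=
            hnum
        _ ≤ _ := by
            have : (h : ℝ) ≤ D₁ := by exact_mod_cast hh.2
            gcongr
    calc ∑ h ∈ Ioc w D₁, ex k Y (fun y => ind (h ∣ ∏ i, y i)) * Ph (n' + 1) X q₀ ρ a b h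
        ≤ ∑ h ∈ Ioc w D₁, (2 * 8 ^ K * (Real.sqrt h / (h : ℝ) ^ 2) +
            2 * 8 ^ K * CT ^ 2 * (D₁ : ℝ) ^ 3 / (D : ℝ) ^ 2) := Finset.sum_le_sum hterm
      _ = 2 * 8 ^ K * ∑ h ∈ Ioc w D₁, (Real.sqrt h / (h : ℝ) ^ 2) +
            ((D₁ - w : ℕ) : ℝ) * (2 * 8 ^ K * CT ^ 2 * (D₁ : ℝ) ^ 3 / (D : ℝ) ^ 2) := by
          rw [Finset.sum_add_distrib, Finset.mul_sum, Finset.sum_const, nsmul_eq_mul, Nat.card_Ioc]
      _ ≤ 2 * 8 ^ K * (2 / Real.sqrt w) +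
            (D₁ : ℝ) * (2 * 8 ^ K * CT ^ 2 * (D₁ : ℝ) ^ 3 / (D : ℝ) ^ 2) := by
          have h1 := sum_three_half w (by omega) D₁
          have h2 : ((D₁ - w : ℕ) : ℝ) ≤ D₁ := by exact_mod_cast Nat.sub_le _ _
          gcongr
      _ ≤ ε / 3 + ε / 3 := by
          refine add_le_add hw4 ?_
          have h1 : (D₁ : ℝ) * (2 * 8 ^ K * CT ^ 2 * (D₁ : ℝ) ^ 3 / (D : ℝ) ^ 2) =
              2 * 8 ^ K * CT ^ 2 * (D₁ : ℝ) ^ 4 / (D : ℝ) ^ 2 := by ring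
          rw [h1, div_le_iff₀ (by positivity)]
          have h2 : 2 * 8 ^ K * CT ^ 2 / (ε / 3) ≤ D₁ := by
            refine (Nat.le_ceil _).trans (le_trans ?_ hLr)
            have : ⌈2 * 8 ^ K * CT ^ 2 / (ε / 3)⌉₊ ≤ L := by rw [hLdef]; omega
            exact_mod_cast this
          rw [div_le_iff₀ (by positivity)] at h2
          calc 2 * 8 ^ K * CT ^ 2 * (D₁ : ℝ) ^ 4 ≤ ((D₁ : ℝ) * (ε / 3)) * D := by gcongr
            _ ≤ ((D : ℝ) * (ε / 3)) * D := by gcongr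
            _ = ε / 3 * (D : ℝ) ^ 2 := by ring
  -- large denominators
  have hlarge : ∑ h ∈ Ioc D₁ Q, ex k Y (fun y => ind (h ∣ ∏ i, y i)) * Ph (n' + 1) X q₀ ρ a b h ≤
      ε / 3 := by
    set tQ : ℕ := 2 ^ Nat.log w Q with htQ
    set tN : ℕ := 2 ^ Nat.log w N with htN
    -- the maximum
    have hlw : ∀ x ∈ X, lw X x ≤ (CX : ℝ) / D := by
      intro x hx
      have hx0 := (hXm x hx).1
      have h1 := (hXg x hx0).1
      have h2 : lw X x ≤ ∑ x' ∈ X, lw X x' * ind (x ∣ x') := by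
        have := Finset.single_le_sum (f := fun x' => lw X x' * ind (x ∣ x'))
          (fun i _ => mul_nonneg (lw_nonneg _ _) (ind_nonneg _)) hx
        simp only [ind_true (dvd_refl x), mul_one] at this
        exact this
      have h3 : (CX : ℝ) / x ≤ CX / D := by
        have : D < x := by
          have h4 := hx
          rw [hX, mem_Kp] at h4
          exact h4.1.1
        have h5 : (D : ℝ) ≤ x := by exact_mod_cast this.le
        gcongr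
      exact h2.trans (h1.trans h3)
    set mx : ℝ := ((CX : ℝ) / D) ^ (n' + 1) * (tN : ℝ) ^ (n' + 1) with hmx
    have hmx0 : 0 ≤ mx := by rw [hmx]; positivity
    have hmax : ∀ f ∈ Icc 1 N, ∑ x ∈ (Fintype.piFinset (fun _ : Fin (n' + 1) => X)).filter
        (fun x => ∏ i, x i = f), Wt (n' + 1) X x ≤ mx := by
      intro f hf
      rw [Finset.mem_Icc] at hf
      rcases Finset.eq_empty_or_nonempty ((Fintype.piFinset (fun _ : Fin (n' + 1) => X)).filter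
        (fun x => ∏ i, x i = f)) with he0 | ⟨x, hx⟩
      · rw [he0, Finset.sum_empty]
        exact hmx0
      · refine (max_bound (n' + 1) X _ (by positivity) hlw f hf.1).trans ?_
        rw [Finset.mem_filter] at hx
        have hc := (prod_cop hXm x hx.1).2
        rw [hx.2] at hc
        have h1 := (tau_rough hRT w M (8 * m) hw3 hwM hw2 f hf.1 hc N hf.2).1
        have h2 : (f.divisors.card : ℝ) ≤ tN := by exact_mod_cast h1
        rw [hmx]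
        gcongr
    have hPs := fun Q' hQ' => Ph_sum CL hCL hL (n' + 1) N hN1 X hXN mx hmx0 hmax q₀ ρ a b Q' hQ'
    have habel := abel_bound (fun h => Ph (n' + 1) X q₀ ρ a b h) (fun h => Ph_nonneg _ _ _ _ _ _ _)
      (CL * mx) N (by positivity) (by positivity) hPs D₁ hD₁1 Q
    have hterm : ∀ h ∈ Ioc D₁ Q, ex k Y (fun y => ind (h ∣ ∏ i, y i)) * Ph (n' + 1) X q₀ ρ a b h ≤
        ((CY : ℝ) ^ k * (tQ : ℝ) ^ k) * (Ph (n' + 1) X q₀ ρ a b h / h) := by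
      intro h hh
      rw [Finset.mem_Ioc] at hh
      have hPh0 := Ph_nonneg (n' + 1) X q₀ ρ a b h
      by_cases hc : Nat.Coprime h M
      swap
      · rw [prob_zero k Y hYm h hc, zero_mul]
        positivity
      have h0 : 0 < h := by omega
      have h1 := hDP Y h CY k h0 (by positivity)
        (fun g hg => (hYg g (Nat.pos_of_dvd_of_pos hg h0)).1)
      have h2 := (tau_rough hRT w M (8 * m) hw3 hwM hw2 h h0 hc Q hh.2).1
      have h3 : (h.divisors.card : ℝ) ≤ tQ := by exact_mod_cast h2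
      have h4 : ex k Y (fun y => ind (h ∣ ∏ i, y i)) ≤ (CY : ℝ) ^ k * (tQ : ℝ) ^ k / h := by
        refine h1.trans ?_
        rw [mul_comm ((h.divisors.card : ℝ) ^ k)]
        gcongr
      calc _ ≤ (CY : ℝ) ^ k * (tQ : ℝ) ^ k / h * Ph (n' + 1) X q₀ ρ a b h :=
            mul_le_mul_of_nonneg_right h4 hPh0
        _ = _ := by ring
    -- numbers
    set U : ℝ := (tQ : ℝ) ^ k * (tN : ℝ) ^ (n' + 1) with hU
    have hU0 : 0 ≤ U := by rw [hU]; positivity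
    have htQ8 : tQ ^ (8 * m) ≤ Q := by
      rw [htQ, ← pow_mul, mul_comm, pow_mul]
      exact (Nat.pow_le_pow_left hw2 _).trans (Nat.pow_log_le_self w (by omega))
    have htN8 : tN ^ (8 * m) ≤ N := by
      rw [htN, ← pow_mul, mul_comm, pow_mul]
      exact (Nat.pow_le_pow_left hw2 _).trans (Nat.pow_log_le_self w (by omega))
    have hU8 : U ^ 8 ≤ C₃ * D := by
      apply le_of_pow_le_pow_left₀ (n := m) (by omega) (by positivity)
      have h1 : (U ^ 8) ^ m = ((tQ : ℝ) ^ (8 * m)) ^ k * ((tN : ℝ) ^ (8 * m)) ^ (n' + 1) := by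
        rw [hU]
        ring
      have h2 : (tQ : ℝ) ^ (8 * m) ≤ (Q : ℝ) := by exact_mod_cast htQ8
      have h3 : (tN : ℝ) ^ (8 * m) ≤ (N : ℝ) := by exact_mod_cast htN8
      rw [h1]
      calc ((tQ : ℝ) ^ (8 * m)) ^ k * ((tN : ℝ) ^ (8 * m)) ^ (n' + 1)
          ≤ (Q : ℝ) ^ k * (N : ℝ) ^ (n' + 1) := by gcongr
        _ = C₃ * (D : ℝ) ^ m := by
            rw [hC₃, hm, hQ, hN]
            push_cast
            ring
        _ ≤ C₃ ^ m * (D : ℝ) ^ m := by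
            have : C₃ ≤ C₃ ^ m := by
              calc C₃ = C₃ ^ 1 := (pow_one _).symm
                _ ≤ C₃ ^ m := pow_le_pow_right₀ hC₃1 hm1
            gcongr
        _ = (C₃ * D) ^ m := (mul_pow C₃ (D : ℝ) m).symm
    have hfin := large_num C₃ U C₄ D₁ (ε / 3) hC₃0 hU0 hC₄0 hD₁r (by positivity)
      (hU8.trans (by
        have : (D : ℝ) ≤ 16 * (D₁ : ℝ) ^ 4 := by exact_mod_cast hD16
        gcongr)) (by
        refine (Nat.le_ceil _).trans (le_trans ?_ hLr)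
        have : ⌈16 * C₃ * C₄ ^ 8 / (ε / 3) ^ 8⌉₊ ≤ L := by rw [hLdef]; omega
        exact_mod_cast this)
    have hbig : mx * ((N : ℝ) / D₁ + 2 * Q) ≤ (tN : ℝ) ^ (n' + 1) * ((((CX : ℝ) * R₁) ^ (n' + 1) +
        2 * (CX : ℝ) ^ (n' + 1) * ((R₂ * H : ℕ) : ℝ) ^ k) / D₁) := by
      have h1 : ((CX : ℝ) / D) ^ (n' + 1) * (N : ℝ) = ((CX : ℝ) * R₁) ^ (n' + 1) := by
        rw [hN]
        push_cast
        rw [← mul_pow]
        congr 1
        field_simp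
      have h2 : ((CX : ℝ) / D) ^ (n' + 1) * (Q : ℝ) ≤
          (CX : ℝ) ^ (n' + 1) * ((R₂ * H : ℕ) : ℝ) ^ k / D₁ := by
        have h3 : (Q : ℝ) = ((R₂ * H : ℕ) : ℝ) ^ k * (D : ℝ) ^ (e₀ * k) := by
          rw [hQ]
          push_cast
          ring
        have h4 : (D : ℝ) ^ (e₀ * k) * D₁ ≤ (D : ℝ) ^ (n' + 1) := by
          calc (D : ℝ) ^ (e₀ * k) * D₁ ≤ (D : ℝ) ^ (e₀ * k) * D := by gcongr
            _ = (D : ℝ) ^ (e₀ * k + 1) := by ring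
            _ ≤ (D : ℝ) ^ (n' + 1) :=
                pow_le_pow_right₀ (by exact_mod_cast hD0) (by omega)
        rw [h3, div_pow, le_div_iff₀ (by linarith)]
        calc (CX : ℝ) ^ (n' + 1) / (D : ℝ) ^ (n' + 1) *
              (((R₂ * H : ℕ) : ℝ) ^ k * (D : ℝ) ^ (e₀ * k)) * D₁ =
              ((CX : ℝ) ^ (n' + 1) * ((R₂ * H : ℕ) : ℝ) ^ k) *
                (((D : ℝ) ^ (e₀ * k) * D₁) / (D : ℝ) ^ (n' + 1)) := by ring
          _ ≤ ((CX : ℝ) ^ (n' + 1) * ((R₂ * H : ℕ) : ℝ) ^ k) * 1 := by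
              have : ((D : ℝ) ^ (e₀ * k) * D₁) / (D : ℝ) ^ (n' + 1) ≤ 1 := by
                rw [div_le_one (by positivity)]
                exact h4
              gcongr
          _ = _ := mul_one _
      have h5 : mx * ((N : ℝ) / D₁ + 2 * Q) = (tN : ℝ) ^ (n' + 1) *
          ((((CX : ℝ) / D) ^ (n' + 1) * (N : ℝ)) / D₁ +
            2 * (((CX : ℝ) / D) ^ (n' + 1) * (Q : ℝ))) := by
        rw [hmx]
        ring
      rw [h5, h1]
      have h6 : ((((CX : ℝ) * R₁) ^ (n' + 1) +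
        2 * (CX : ℝ) ^ (n' + 1) * ((R₂ * H : ℕ) : ℝ) ^ k) / D₁) =
          ((CX : ℝ) * R₁) ^ (n' + 1) / D₁ +
            2 * ((CX : ℝ) ^ (n' + 1) * ((R₂ * H : ℕ) : ℝ) ^ k / D₁) := by ring
      rw [h6]
      gcongr
    calc ∑ h ∈ Ioc D₁ Q, ex k Y (fun y => ind (h ∣ ∏ i, y i)) * Ph (n' + 1) X q₀ ρ a b h
        ≤ ∑ h ∈ Ioc D₁ Q, ((CY : ℝ) ^ k * (tQ : ℝ) ^ k) * (Ph (n' + 1) X q₀ ρ a b h / h) :=
          Finset.sum_le_sum hterm
      _ = ((CY : ℝ) ^ k * (tQ : ℝ) ^ k) * ∑ h ∈ Ioc D₁ Q, (Ph (n' + 1) X q₀ ρ a b h / h) := by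
          rw [Finset.mul_sum]
      _ ≤ ((CY : ℝ) ^ k * (tQ : ℝ) ^ k) * (CL * mx * ((N : ℝ) / D₁ + 2 * Q)) := by gcongr
      _ = ((CY : ℝ) ^ k * (tQ : ℝ) ^ k * CL) * (mx * ((N : ℝ) / D₁ + 2 * Q)) := by ring
      _ ≤ ((CY : ℝ) ^ k * (tQ : ℝ) ^ k * CL) * ((tN : ℝ) ^ (n' + 1) *
            ((((CX : ℝ) * R₁) ^ (n' + 1) +
              2 * (CX : ℝ) ^ (n' + 1) * ((R₂ * H : ℕ) : ℝ) ^ k) / D₁)) := by gcongr
      _ = C₄ * U / D₁ := by rw [hC₄, hU]; ring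
      _ ≤ ε / 3 := hfin
  linarith

end Pool.Agent.T9h42.QD
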