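import Pool.Agent.T9h57.QD.Spec2

/-!
# `SieveBdOf`, first part: exponential sums and the decomposition over the divisors
-/

set_option autoImplicit false

namespace Pool.Agent.T9h42.QD

open Finset Pool.Agent.T9h57.QD

/-- additive character `e(b m / h)`. -/
noncomputable def ee (b m h : ℕ) : ℂ :=
  Complex.exp (2 * Real.pi * Complex.I * ((b : ℂ) * (m : ℂ) / (h : ℂ)))

theorem ee_norm (b m h : ℕ) : ‖ee b m h‖ = 1 := by
  unfold ee
  have : (2 * Real.pi * Complex.I * ((b : ℂ) * (m : ℂ) / (h : ℂ))) =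
      ((2 * Real.pi * ((b : ℝ) * m / h) : ℝ) : ℂ) * Complex.I := by
    push_cast
    ring
  rw [this, Complex.norm_exp_ofReal_mul_I]

theorem ee_pow (b m h : ℕ) : ee b m h = Complex.exp (2 * Real.pi * Complex.I / h) ^ (b * m) := by
  unfold ee
  rw [← Complex.exp_nat_mul]
  congr 1
  push_cast
  ring

theorem ee_scale (g b m h : ℕ) (hg : 0 < g) : ee (g * b) m (g * h) = ee b m h := by
  unfold ee
  congr 2
  have : (g : ℂ) ≠ 0 := by exact_mod_cast hg.ne'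
  push_cast
  rcases Nat.eq_zero_or_pos h with rfl | hh
  · simp
  · have : (h : ℂ) ≠ 0 := by exact_mod_cast hh.ne'
    field_simp

/-- orthogonality. -/
theorem sum_ee (τ m m' : ℕ) (hτ : 0 < τ) :
    ∑ b ∈ range τ, ee b m τ * (starRingEnd ℂ) (ee b m' τ) = (τ : ℂ) * (ind (m ≡ m' [MOD τ]) : ℝ) := by
  have hp : IsPrimitiveRoot (Complex.exp (2 * Real.pi * Complex.I / τ)) τ :=
    Complex.isPrimitiveRoot_exp τ hτ.ne'
  set ζ := Complex.exp (2 * Real.pi * Complex.I / τ) with hζ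
  have hζ0 : ζ ≠ 0 := Complex.exp_ne_zero _
  have hn : ∀ b m : ℕ, (starRingEnd ℂ) (ζ ^ (b * m)) = (ζ ^ (b * m))⁻¹ := by
    intro b m
    have h1 : ‖ζ ^ (b * m)‖ = 1 := by rw [hζ, ← ee_pow, ee_norm]
    rw [Complex.inv_def, Complex.normSq_eq_norm_sq, h1]
    simp
  have h1 : ∀ b ∈ range τ, ee b m τ * (starRingEnd ℂ) (ee b m' τ) = (ζ ^ m * (ζ ^ m')⁻¹) ^ b := by
    intro b _
    rw [ee_pow, ee_pow, ← hζ, hn, mul_comm b m, mul_comm b m', pow_mul, pow_mul, mul_pow, inv_pow]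
  rw [Finset.sum_congr rfl h1]
  have hz : ∀ m, ζ ^ m = ζ ^ (m % τ) := by
    intro m
    conv_lhs => rw [← Nat.div_add_mod m τ, pow_add, pow_mul, hp.pow_eq_one, one_pow, one_mul]
  by_cases hm : m ≡ m' [MOD τ]
  · have h2 : ζ ^ m = ζ ^ m' := by
      rw [hz m, hz m']
      exact congrArg _ hm
    rw [h2, mul_inv_cancel₀ (pow_ne_zero _ hζ0)]
    simp [ind, hm]
  · have h2 : ζ ^ m ≠ ζ ^ m' := by
      intro h
      rw [hz m, hz m'] at h
      exact hm (hp.pow_inj (Nat.mod_lt _ hτ) (Nat.mod_lt _ hτ) h)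
    have h3 : ζ ^ m * (ζ ^ m')⁻¹ ≠ 1 := by
      intro h
      apply h2
      rw [mul_inv_eq_one₀ (pow_ne_zero _ hζ0)] at h
      exact h
    have h4 : (ζ ^ m * (ζ ^ m')⁻¹) ^ τ = 1 := by
      rw [mul_pow, inv_pow, ← pow_mul, ← pow_mul, mul_comm m τ, mul_comm m' τ, pow_mul, pow_mul,
        hp.pow_eq_one]
      simp
    rw [geom_sum_eq h3, h4]
    simp [ind, hm]

/-- Parseval. -/
theorem parseval {ι : Type} (s : Finset ι) (c : ι → ℝ) (F : ι → ℕ) (τ : ℕ) (hτ : 0 < τ) :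
    ∑ b ∈ range τ, ‖∑ i ∈ s, (c i : ℂ) * ee b (F i) τ‖ ^ 2 =
      τ * ∑ i ∈ s, ∑ j ∈ s, c i * c j * ind (F i ≡ F j [MOD τ]) := by
  have key : ((∑ b ∈ range τ, ‖∑ i ∈ s, (c i : ℂ) * ee b (F i) τ‖ ^ 2 : ℝ) : ℂ) =
      ((τ * ∑ i ∈ s, ∑ j ∈ s, c i * c j * ind (F i ≡ F j [MOD τ]) : ℝ) : ℂ) := by
    push_cast
    calc ∑ b ∈ range τ, ((‖∑ i ∈ s, (c i : ℂ) * ee b (F i) τ‖ : ℝ) : ℂ) ^ 2
        = ∑ b ∈ range τ, ∑ i ∈ s, ∑ j ∈ s, ((c i : ℂ) * (c j : ℂ)) *
            (ee b (F i) τ * (starRingEnd ℂ) (ee b (F j) τ)) := by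
          refine Finset.sum_congr rfl fun b _ => ?_
          rw [← Complex.mul_conj', map_sum, Finset.sum_mul_sum]
          refine Finset.sum_congr rfl fun i _ => Finset.sum_congr rfl fun j _ => ?_
          rw [map_mul, Complex.conj_ofReal]
          ring
      _ = ∑ i ∈ s, ∑ j ∈ s, ((c i : ℂ) * (c j : ℂ)) *
            ∑ b ∈ range τ, (ee b (F i) τ * (starRingEnd ℂ) (ee b (F j) τ)) := by
          rw [Finset.sum_comm]
          refine Finset.sum_congr rfl fun i _ => ?_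
          rw [Finset.sum_comm]
          refine Finset.sum_congr rfl fun j _ => ?_
          rw [Finset.mul_sum]
      _ = _ := by
          rw [Finset.mul_sum]
          refine Finset.sum_congr rfl fun i _ => ?_
          rw [Finset.mul_sum]
          refine Finset.sum_congr rfl fun j _ => ?_
          rw [sum_ee τ _ _ hτ]
          ring
  exact_mod_cast key

/-- decomposition of the fractions with denominator `τ` in lowest terms. -/
theorem sum_range_div (G : ℕ → ℕ → ℝ) (hG : ∀ g b h, 0 < g → G (g * b) (g * h) = G b h)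
    (τ : ℕ) (hτ : 0 < τ) :
    ∑ b ∈ range τ, G b τ =
      ∑ h ∈ τ.divisors, ∑ b ∈ (range h).filter (fun b => Nat.Coprime b h), G b h := by
  rw [Finset.sum_sigma']
  refine Finset.sum_bij' (fun b _ => (⟨τ / Nat.gcd b τ, b / Nat.gcd b τ⟩ : (_ : ℕ) × ℕ))
    (fun p _ => p.2 * (τ / p.1)) ?_ ?_ ?_ ?_ ?_
  · intro b hb
    have hg : 0 < Nat.gcd b τ := Nat.gcd_pos_of_pos_right _ hτ
    have h1 : Nat.gcd b τ ∣ τ := Nat.gcd_dvd_right _ _
    have h2 : Nat.gcd b τ ∣ b := Nat.gcd_dvd_left _ _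
    simp only [Finset.mem_sigma, Nat.mem_divisors, Finset.mem_filter, Finset.mem_range]
    refine ⟨⟨Nat.div_dvd_of_dvd h1, hτ.ne'⟩, ?_, ?_⟩
    · exact Nat.div_lt_div_of_lt_of_dvd h1 (Finset.mem_range.1 hb)
    · exact Nat.coprime_div_gcd_div_gcd hg
  · rintro ⟨h, b⟩ hp
    simp only [Finset.mem_sigma, Nat.mem_divisors, Finset.mem_filter, Finset.mem_range] at hp ⊢
    obtain ⟨⟨⟨t, ht⟩, -⟩, hb, -⟩ := hp
    have hh : 0 < h := by omega
    have htp : 0 < t := by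
      rcases Nat.eq_zero_or_pos t with h0 | h0
      · rw [h0] at ht; omega
      · exact h0
    rw [ht, Nat.mul_div_cancel_left _ hh]
    exact Nat.mul_lt_mul_of_pos_right hb htp
  · intro b hb
    have hg : 0 < Nat.gcd b τ := Nat.gcd_pos_of_pos_right _ hτ
    have h1 : Nat.gcd b τ ∣ τ := Nat.gcd_dvd_right _ _
    have h2 : Nat.gcd b τ ∣ b := Nat.gcd_dvd_left _ _
    show b / Nat.gcd b τ * (τ / (τ / Nat.gcd b τ)) = b
    rw [Nat.div_div_self h1 hτ.ne', Nat.div_mul_cancel h2]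
  · rintro ⟨h, b⟩ hp
    simp only [Finset.mem_sigma, Nat.mem_divisors, Finset.mem_filter, Finset.mem_range] at hp
    obtain ⟨⟨⟨t, ht⟩, -⟩, hb, hc⟩ := hp
    have hh : 0 < h := by omega
    have htp : 0 < t := by
      rcases Nat.eq_zero_or_pos t with h0 | h0
      · rw [h0] at ht; omega
      · exact h0
    have h1 : τ / h = t := by rw [ht, Nat.mul_div_cancel_left _ hh]
    have h2 : Nat.gcd (b * t) τ = t := by
      rw [ht, Nat.gcd_mul_right]
      rw [Nat.coprime_iff_gcd_eq_one.1 hc, one_mul]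
    simp only [h1, h2]
    rw [Nat.mul_div_cancel _ htp]
    have h3 : τ / t = h := by rw [ht, Nat.mul_div_cancel _ htp]
    rw [h3]
  · intro b hb
    have hg : 0 < Nat.gcd b τ := Nat.gcd_pos_of_pos_right _ hτ
    have h1 : Nat.gcd b τ ∣ τ := Nat.gcd_dvd_right _ _
    have h2 : Nat.gcd b τ ∣ b := Nat.gcd_dvd_left _ _
    show G b τ = G (b / Nat.gcd b τ) (τ / Nat.gcd b τ)
    have h3 := hG (Nat.gcd b τ) (b / Nat.gcd b τ) (τ / Nat.gcd b τ) hg
    rw [Nat.mul_div_cancel' h2, Nat.mul_div_cancel' h1] at h3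
    exact h3

end Pool.Agent.T9h42.QD
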