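import Pool.Agent.T9h42.QD.SieveB

/-!
# `SieveBdOf`, third part: small denominators, the large sieve
-/

set_option autoImplicit false

namespace Pool.Agent.T9h42.QD

open Finset Pool.Agent.T9h57.QD

theorem mem_Kp {M a b x : ℕ} : x ∈ Kp M a b ↔ (a < x ∧ x ≤ b) ∧ Nat.Coprime x M := by
  simp [Kp]

theorem gg_nonneg (q₀ ρ : ℕ) (a b : ℝ) (f : ℕ) : 0 ≤ gg q₀ ρ a b f := ind_nonneg _

theorem gg_le_one (q₀ ρ : ℕ) (a b : ℝ) (f : ℕ) : gg q₀ ρ a b f ≤ 1 := ind_le_one _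

theorem coprime_of_primes {q₀ M P : ℕ} (hM : 0 < M) (hq : ∀ p, p.Prime → p ∣ q₀ → p ∣ M)
    (hP : Nat.Coprime P M) : Nat.Coprime P q₀ := by
  rw [Nat.coprime_iff_gcd_eq_one]
  by_contra h
  obtain ⟨p, hp, hpd⟩ := Nat.exists_prime_and_dvd h
  have h1 := hq p hp (hpd.trans (Nat.gcd_dvd_right _ _))
  have h2 : p ∣ P := hpd.trans (Nat.gcd_dvd_left _ _)
  have h3 : p ∣ 1 := by
    rw [← Nat.coprime_iff_gcd_eq_one.1 hP]
    exact Nat.dvd_gcd h2 h1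
  exact hp.one_lt.ne' (Nat.dvd_one.1 h3)

theorem gg_shift {q₀ : ℕ} (P : ℕ) (hP : 0 < P) (hc : Nat.Coprime P q₀) (ρ : ℕ) :
    ∃ ρ' : ℕ, ∀ (a b : ℝ) (x : ℕ), gg q₀ ρ a b (x * P) =
      ind (a / P < x ∧ (x : ℝ) ≤ b / P ∧ x ≡ ρ' [MOD q₀]) := by
  obtain ⟨u, hu⟩ : ∃ u : ℕ, P * u ≡ 1 [MOD q₀] := by
    rcases Nat.lt_trichotomy q₀ 1 with h | h | h
    · have : q₀ = 0 := by omega
      subst this
      rw [Nat.coprime_zero_right] at hc
      subst hc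
      exact ⟨1, by rfl⟩
    · subst h
      exact ⟨0, Nat.modEq_one⟩
    · obtain ⟨m, -, hm⟩ := Nat.exists_mul_mod_eq_one_of_coprime hc h
      refine ⟨m, ?_⟩
      unfold Nat.ModEq
      rw [hm, Nat.mod_eq_of_lt h]
  refine ⟨ρ * u, fun a b x => ?_⟩
  have hPp : (0 : ℝ) < P := by exact_mod_cast hP
  have e1 : (x * P ≡ ρ [MOD q₀]) ↔ (x ≡ ρ * u [MOD q₀]) := by
    constructor
    · intro h
      have h1 : x * P * u ≡ ρ * u [MOD q₀] := h.mul_right u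
      have h2 : x * P * u ≡ x * 1 [MOD q₀] := by
        rw [mul_assoc]
        exact hu.mul_left x
      rw [mul_one] at h2
      exact h2.symm.trans h1
    · intro h
      have h1 : x * P ≡ ρ * u * P [MOD q₀] := h.mul_right P
      have h2 : ρ * u * P ≡ ρ * 1 [MOD q₀] := by
        rw [mul_assoc, mul_comm u P]
        exact hu.mul_left ρ
      rw [mul_one] at h2
      exact h1.trans h2
  unfold gg
  congr 1
  rw [e1, div_lt_iff₀ hPp, le_div_iff₀ hPp]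
  push_cast
  rfl

theorem inner_bound {M q₀ D : ℕ} (X : Finset ℕ) (C : ℝ) (hC : 0 ≤ C)
    (hT : ∀ (ρ : ℕ) (a b : ℝ) (h j : ℕ), 1 < h → Nat.Coprime h M → Nat.Coprime j h →
      ‖∑ x ∈ X, ((lw X x * ind (a < x ∧ (x : ℝ) ≤ b ∧ x ≡ ρ [MOD q₀]) : ℝ) : ℂ) *
        Complex.exp (2 * Real.pi * Complex.I * ((j : ℂ) * (x : ℂ) / (h : ℂ)))‖ ≤ C * h / D)
    (ρ : ℕ) (a b : ℝ) (j h : ℕ) (hh : 1 < h) (hhM : Nat.Coprime h M) (hj : Nat.Coprime j h)
    (P : ℕ) (hP : 0 < P) (hPq : Nat.Coprime P q₀) :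
    ‖∑ x ∈ X, ((lw X x * gg q₀ ρ a b (x * P) : ℝ) : ℂ) * ee j (x * P) h‖ ≤
      ind (h ∣ P) + C * h / D := by
  have hc0 : 0 ≤ C * h / D := by positivity
  by_cases hd : h ∣ P
  · rw [ind_true hd]
    have h1 : ‖∑ x ∈ X, ((lw X x * gg q₀ ρ a b (x * P) : ℝ) : ℂ) * ee j (x * P) h‖ ≤ 1 := by
      refine (norm_sum_le _ _).trans (le_trans (Finset.sum_le_sum fun x _ => ?_) (sum_lw_le X))
      rw [norm_mul, ee_norm, mul_one, Complex.norm_real, Real.norm_eq_abs,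
        abs_of_nonneg (mul_nonneg (lw_nonneg _ _) (gg_nonneg _ _ _ _ _))]
      exact mul_le_of_le_one_right (lw_nonneg _ _) (gg_le_one _ _ _ _ _)
    linarith
  · rw [ind_false hd, zero_add]
    obtain ⟨ρ', hρ'⟩ := gg_shift P hP hPq ρ
    set g := Nat.gcd P h with hg
    have hgp : 0 < g := Nat.gcd_pos_of_pos_left _ hP
    obtain ⟨P', hP'⟩ : g ∣ P := Nat.gcd_dvd_left _ _
    obtain ⟨h', hh'⟩ : g ∣ h := Nat.gcd_dvd_right _ _
    have hcop : Nat.Coprime P' h' := by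
      have h1 := Nat.coprime_div_gcd_div_gcd (m := P) (n := h) hgp
      rw [← hg] at h1
      have h2 : P / g = P' := by
        conv_lhs => rw [hP']
        rw [Nat.mul_div_cancel_left _ hgp]
      have h3 : h / g = h' := by
        conv_lhs => rw [hh']
        rw [Nat.mul_div_cancel_left _ hgp]
      rw [h2, h3] at h1
      exact h1
    have hh'1 : 1 < h' := by
      rcases Nat.lt_or_ge 1 h' with h1 | h1
      · exact h1
      · exfalso
        interval_cases h'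
        · omega
        · rw [mul_one] at hh'
          apply hd
          rw [hh']
          exact ⟨P', hP'⟩
    have hh'd : h' ∣ h := ⟨g, by rw [hh']; ring⟩
    have e1 : ∑ x ∈ X, ((lw X x * gg q₀ ρ a b (x * P) : ℝ) : ℂ) * ee j (x * P) h =
        ∑ x ∈ X, ((lw X x * ind (a / P < x ∧ (x : ℝ) ≤ b / P ∧ x ≡ ρ' [MOD q₀]) : ℝ) : ℂ) *
          Complex.exp (2 * Real.pi * Complex.I * (((j * P' : ℕ) : ℂ) * (x : ℂ) / (h' : ℂ))) := by
      refine Finset.sum_congr rfl fun x _ => ?_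
      rw [hρ']
      congr 1
      unfold ee
      congr 2
      have h1 : (g : ℂ) ≠ 0 := by exact_mod_cast hgp.ne'
      have h2 : (h' : ℂ) ≠ 0 := by exact_mod_cast (by omega : h' ≠ 0)
      have h3 : (h : ℂ) = g * h' := by exact_mod_cast hh'
      have h4 : (P : ℂ) = g * P' := by exact_mod_cast hP'
      push_cast
      rw [h3, h4]
      field_simp
    rw [e1]
    refine (hT ρ' _ _ h' (j * P') hh'1 (Nat.Coprime.coprime_dvd_left hh'd hhM)
      (Nat.Coprime.mul_left (Nat.Coprime.coprime_dvd_right hh'd hj) hcop)).trans ?_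
    have h5 : (h' : ℝ) ≤ h := by exact_mod_cast Nat.le_of_dvd (by omega) hh'd
    gcongr

theorem prod_cop {M n : ℕ} {X : Finset ℕ} (hX : ∀ x ∈ X, 0 < x ∧ Nat.Coprime x M) (v : Fin n → ℕ)
    (hv : v ∈ Fintype.piFinset (fun _ : Fin n => X)) :
    0 < ∏ i, v i ∧ Nat.Coprime (∏ i, v i) M := by
  rw [Fintype.mem_piFinset] at hv
  exact ⟨Finset.prod_pos fun i _ => (hX _ (hv i)).1,
    Nat.Coprime.prod_left fun i _ => (hX _ (hv i)).2⟩

theorem Ef_bound {M q₀ D : ℕ} (X : Finset ℕ) (hX : ∀ x ∈ X, 0 < x ∧ Nat.Coprime x M) (C : ℝ)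
    (hC : 0 ≤ C) (hM : 0 < M) (hq : ∀ p, p.Prime → p ∣ q₀ → p ∣ M)
    (hT : ∀ (ρ : ℕ) (a b : ℝ) (h j : ℕ), 1 < h → Nat.Coprime h M → Nat.Coprime j h →
      ‖∑ x ∈ X, ((lw X x * ind (a < x ∧ (x : ℝ) ≤ b ∧ x ≡ ρ [MOD q₀]) : ℝ) : ℂ) *
        Complex.exp (2 * Real.pi * Complex.I * ((j : ℂ) * (x : ℂ) / (h : ℂ)))‖ ≤ C * h / D)
    (n ρ : ℕ) (a b : ℝ) (j h : ℕ) (hh : 1 < h) (hhM : Nat.Coprime h M) (hj : Nat.Coprime j h) :
    ‖Ef (n + 1) X q₀ ρ a b j h‖ ≤ ex n X (fun v => ind (h ∣ ∏ i, v i)) + C * h / D := by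
  have hc0 : 0 ≤ C * h / D := by positivity
  have e1 : Ef (n + 1) X q₀ ρ a b j h =
      ∑ v ∈ Fintype.piFinset (fun _ : Fin n => X), ((Wt n X v : ℝ) : ℂ) *
        ∑ x ∈ X, ((lw X x * gg q₀ ρ a b (x * ∏ i, v i) : ℝ) : ℂ) * ee j (x * ∏ i, v i) h := by
    unfold Ef
    rw [sum_piFinset_succ]
    refine Finset.sum_congr rfl fun v _ => ?_
    rw [Finset.mul_sum]
    refine Finset.sum_congr rfl fun x _ => ?_
    have h1 : Wt (n + 1) X (Fin.cons x v) = lw X x * Wt n X v := by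
      unfold Wt
      rw [Fin.prod_univ_succ]
      simp
    have h2 : (∏ i, (Fin.cons x v : Fin (n + 1) → ℕ) i) = x * ∏ i, v i := by
      rw [Fin.prod_univ_succ]
      simp
    rw [h1, h2]
    push_cast
    ring
  rw [e1]
  calc ‖∑ v ∈ Fintype.piFinset (fun _ : Fin n => X), ((Wt n X v : ℝ) : ℂ) *
        ∑ x ∈ X, ((lw X x * gg q₀ ρ a b (x * ∏ i, v i) : ℝ) : ℂ) * ee j (x * ∏ i, v i) h‖
      ≤ ∑ v ∈ Fintype.piFinset (fun _ : Fin n => X),
          Wt n X v * (ind (h ∣ ∏ i, v i) + C * h / D) := by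
        refine (norm_sum_le _ _).trans (Finset.sum_le_sum fun v hv => ?_)
        rw [norm_mul, Complex.norm_real, Real.norm_eq_abs, abs_of_nonneg (Wt_nonneg _ _ _)]
        obtain ⟨h1, h2⟩ := prod_cop hX v hv
        exact mul_le_mul_of_nonneg_left (inner_bound X C hC hT ρ a b j h hh hhM hj _ h1
          (coprime_of_primes hM hq h2)) (Wt_nonneg _ _ _)
    _ = ex n X (fun v => ind (h ∣ ∏ i, v i)) +
          (∑ v ∈ Fintype.piFinset (fun _ : Fin n => X), Wt n X v) * (C * h / D) := by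
        rw [ex_eq, Finset.sum_mul, ← Finset.sum_add_distrib]
        exact Finset.sum_congr rfl fun v _ => by ring
    _ ≤ _ := by
        have := mul_le_mul_of_nonneg_right (sum_Wt_le n X) hc0
        linarith

/-- large sieve. -/
theorem Ph_sum (CL : ℝ) (hCL : 0 < CL)
    (hL : ∀ (N Q : ℕ) (a : ℕ → ℝ), 1 ≤ N → 1 ≤ Q →
      ∑ h ∈ Icc 1 Q, ∑ b ∈ (range h).filter (fun b => Nat.Coprime b h),
        ‖∑ n ∈ Icc 1 N, (a n : ℂ) *
          Complex.exp (2 * Real.pi * Complex.I * ((b : ℂ) * (n : ℂ) / (h : ℂ)))‖ ^ 2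
      ≤ CL * ((N : ℝ) + (Q : ℝ) ^ 2) * ∑ n ∈ Icc 1 N, a n ^ 2)
    (n N : ℕ) (hN : 1 ≤ N) (X : Finset ℕ)
    (hX : ∀ x ∈ Fintype.piFinset (fun _ : Fin n => X), ∏ i, x i ∈ Icc 1 N) (m : ℝ) (hm : 0 ≤ m)
    (hmax : ∀ f ∈ Icc 1 N, ∑ x ∈ (Fintype.piFinset (fun _ : Fin n => X)).filter
      (fun x => ∏ i, x i = f), Wt n X x ≤ m)
    (q₀ ρ : ℕ) (a b : ℝ) (Q : ℕ) (hQ : 1 ≤ Q) :
    ∑ h ∈ Icc 1 Q, Ph n X q₀ ρ a b h ≤ CL * m * ((N : ℝ) + (Q : ℝ) ^ 2) := by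
  set A : ℕ → ℝ := fun f => ∑ x ∈ (Fintype.piFinset (fun _ : Fin n => X)).filter
      (fun x => ∏ i, x i = f), Wt n X x * gg q₀ ρ a b f with hA
  have hA0 : ∀ f, 0 ≤ A f := fun f => Finset.sum_nonneg fun x _ =>
    mul_nonneg (Wt_nonneg _ _ _) (gg_nonneg _ _ _ _ _)
  have hAm : ∀ f ∈ Icc 1 N, A f ≤ m := by
    intro f hf
    refine le_trans (Finset.sum_le_sum fun x _ => ?_) (hmax f hf)
    exact mul_le_of_le_one_right (Wt_nonneg _ _ _) (gg_le_one _ _ _ _ _)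
  have hAs : ∑ f ∈ Icc 1 N, A f ≤ 1 := by
    refine le_trans ?_ (sum_Wt_le n X)
    rw [← Finset.sum_fiberwise_of_maps_to hX]
    refine Finset.sum_le_sum fun f _ => Finset.sum_le_sum fun x _ => ?_
    exact mul_le_of_le_one_right (Wt_nonneg _ _ _) (gg_le_one _ _ _ _ _)
  have e1 : ∀ j h, Ef n X q₀ ρ a b j h = ∑ f ∈ Icc 1 N, (A f : ℂ) *
      Complex.exp (2 * Real.pi * Complex.I * ((j : ℂ) * (f : ℂ) / (h : ℂ))) := by
    intro j h
    unfold Ef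
    rw [← Finset.sum_fiberwise_of_maps_to hX]
    refine Finset.sum_congr rfl fun f _ => ?_
    rw [hA]
    push_cast
    rw [Finset.sum_mul]
    refine Finset.sum_congr rfl fun x hx => ?_
    rw [(Finset.mem_filter.1 hx).2]
    rfl
  have h1 := hL N Q A hN hQ
  have h2 : ∑ f ∈ Icc 1 N, A f ^ 2 ≤ m := by
    calc ∑ f ∈ Icc 1 N, A f ^ 2 ≤ ∑ f ∈ Icc 1 N, m * A f := by
          refine Finset.sum_le_sum fun f hf => ?_
          rw [sq]
          exact mul_le_mul_of_nonneg_right (hAm f hf) (hA0 f)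
      _ = m * ∑ f ∈ Icc 1 N, A f := by rw [Finset.mul_sum]
      _ ≤ m * 1 := mul_le_mul_of_nonneg_left hAs hm
      _ = m := mul_one m
  have h3 : ∑ h ∈ Icc 1 Q, Ph n X q₀ ρ a b h ≤
      CL * ((N : ℝ) + (Q : ℝ) ^ 2) * ∑ n ∈ Icc 1 N, A n ^ 2 := by
    refine le_trans (le_of_eq ?_) h1
    refine Finset.sum_congr rfl fun h _ => ?_
    unfold Ph
    refine Finset.sum_congr rfl fun j _ => ?_
    rw [e1]
  refine h3.trans ?_
  calc CL * ((N : ℝ) + (Q : ℝ) ^ 2) * ∑ n ∈ Icc 1 N, A n ^ 2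
      ≤ CL * ((N : ℝ) + (Q : ℝ) ^ 2) * m := mul_le_mul_of_nonneg_left h2 (by positivity)
    _ = _ := by ring

theorem max_bound (n : ℕ) (X : Finset ℕ) (c : ℝ) (hc : 0 ≤ c) (hlw : ∀ x ∈ X, lw X x ≤ c) (f : ℕ)
    (hf : 0 < f) :
    ∑ x ∈ (Fintype.piFinset (fun _ : Fin n => X)).filter (fun x => ∏ i, x i = f), Wt n X x ≤
      c ^ n * (f.divisors.card : ℝ) ^ n := by
  have h1 : ∀ x ∈ (Fintype.piFinset (fun _ : Fin n => X)).filter (fun x => ∏ i, x i = f),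
      Wt n X x ≤ c ^ n := by
    intro x hx
    rw [Finset.mem_filter, Fintype.mem_piFinset] at hx
    unfold Wt
    calc ∏ i, lw X (x i) ≤ ∏ _i : Fin n, c :=
          Finset.prod_le_prod (fun i _ => lw_nonneg _ _) fun i _ => hlw _ (hx.1 i)
      _ = c ^ n := by simp
  have h2 : ((Fintype.piFinset (fun _ : Fin n => X)).filter (fun x => ∏ i, x i = f)).card ≤
      f.divisors.card ^ n := by
    rw [← Fintype.card_piFinset_const]
    apply Finset.card_le_card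
    intro x hx
    rw [Finset.mem_filter] at hx
    rw [Fintype.mem_piFinset]
    intro i
    rw [Nat.mem_divisors]
    refine ⟨?_, hf.ne'⟩
    rw [← hx.2]
    exact Finset.dvd_prod_of_mem _ (Finset.mem_univ i)
  calc _ ≤ ∑ _x ∈ (Fintype.piFinset (fun _ : Fin n => X)).filter (fun x => ∏ i, x i = f), c ^ n :=
        Finset.sum_le_sum h1
    _ = (((Fintype.piFinset (fun _ : Fin n => X)).filter (fun x => ∏ i, x i = f)).card : ℝ) * c ^ n := by
        rw [Finset.sum_const, nsmul_eq_mul]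
    _ ≤ (f.divisors.card : ℝ) ^ n * c ^ n := by
        refine mul_le_mul_of_nonneg_right ?_ (by positivity)
        exact_mod_cast h2
    _ = _ := by ring

end Pool.Agent.T9h42.QD
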